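import Pool.Agent.Q79.KX.Stm

set_option autoImplicit false

/-!
Project KX (helper79): divisibility of the entries of the crossings (job EN).
-/

namespace Pool.Agent.Q84.KX

open Finset Pool.Agent.Q79.KX Pool.Agent.Q79.KV

/-- the number of multiples of `m` in an interval -/
theorem card_mult (m c k : ℕ) (hm : 1 ≤ m) (hk : k ≤ c) :
    ((range k).filter fun t => m ∣ c - t).card = c / m - (c - k) / m := by
  induction k with
  | zero => simp
  | succ k ih =>
    have h := ih (by omega)
    rw [range_add_one, filter_insert]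
    have e : c - k = (c - (k + 1)) + 1 := by omega
    by_cases hd : m ∣ c - k
    · rw [if_pos hd, card_insert_of_notMem (by simp), h, e, Nat.succ_div_of_dvd (by rwa [← e])]
      have h1 : (c - (k + 1)) / m + 1 ≤ c / m := by
        have h2 := Nat.succ_div_of_dvd (a := c - (k + 1)) (b := m) (by rwa [← e])
        rw [← h2]
        exact Nat.div_le_div_right (by omega)
      omega
    · rw [if_neg hd, h, e, Nat.succ_div_of_not_dvd (by rwa [← e])]

theorem en : S_EN := by
  intro R _ u m θ hm hbr hgb b k c e hk he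
  classical
  have h1 : θ ^ (c / m - (c - k) / m) ∣ ∏ t ∈ range k, brR u ((c : ℤ) - t) := by
    rw [← card_mult m c k hm hk]
    have h2 : ∏ t ∈ (range k).filter (fun t => m ∣ c - t), θ ∣
        ∏ t ∈ (range k).filter (fun t => m ∣ c - t), brR u ((c : ℤ) - t) := by
      refine prod_dvd_prod_of_dvd _ _ fun t ht => ?_
      rw [mem_filter, mem_range] at ht
      apply hbr
      have h3 : ((c : ℤ) - t) = ((c - t : ℕ) : ℤ) := by omega
      rw [h3]
      exact_mod_cast ht.2
    rw [prod_const] at h2
    exact h2.trans (prod_dvd_prod_of_subset _ _ _ (filter_subset _ _))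
  by_cases hcase : e ≤ c / m - (c - k) / m
  · exact ((pow_dvd_pow θ hcase).trans h1).mul_left _
  · have hα : e ≤ (b + k) / m - b / m := by omega
    -- counting multiples in intervals of length `k`
    have hm0 : 0 < m := hm
    have e1 := Nat.div_add_mod (b + k) m
    have e2 := Nat.div_add_mod b m
    have e3 := Nat.div_add_mod c m
    have e4 := Nat.div_add_mod (c - k) m
    have f1 := Nat.mod_lt (b + k) hm0
    have f2 := Nat.mod_lt b hm0
    have f3 := Nat.mod_lt c hm0
    have f4 := Nat.mod_lt (c - k) hm0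
    obtain ⟨A, hA⟩ : ∃ A : ℕ, A = (b + k) / m := ⟨_, rfl⟩
    obtain ⟨B, hB⟩ : ∃ B : ℕ, B = b / m := ⟨_, rfl⟩
    obtain ⟨D, hD⟩ : ∃ D : ℕ, D = c / m := ⟨_, rfl⟩
    obtain ⟨E, hE⟩ : ∃ E : ℕ, E = (c - k) / m := ⟨_, rfl⟩
    rw [← hA] at e1 hα
    rw [← hB] at e2 hα
    rw [← hD] at e3 hcase h1
    rw [← hE] at e4 hcase h1
    have hBA : B ≤ A := by rw [hA, hB]; exact Nat.div_le_div_right (by omega)
    have hED : E ≤ D := by rw [hD, hE]; exact Nat.div_le_div_right (by omega)
    obtain ⟨β, hβ⟩ : ∃ β : ℕ, D = E + β := ⟨D - E, by omega⟩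
    obtain ⟨α, hα'⟩ : ∃ α : ℕ, A = B + α := ⟨A - B, by omega⟩
    subst hβ hα'
    have hlt : β < α := by omega
    rw [Nat.mul_add] at e1 e3
    -- `k = m α + (b+k) % m - b % m = m β + c % m - (c-k) % m`
    have k1 : m * α + (b + k) % m = k + b % m := by omega
    have k2 : m * β + c % m = k + (c - k) % m := by omega
    have hαβ : α = β + 1 := by
      by_contra h
      have h2 : β + 2 ≤ α := by omega
      have h3 : m * (β + 2) ≤ m * α := Nat.mul_le_mul_left m h2
      rw [Nat.mul_add] at h3
      omega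
    have hmod : (b + k) % m < b % m := by
      rw [hαβ, Nat.mul_add, Nat.mul_one] at k1
      omega
    have h4 := hgb (b + k) b hmod
    have h5 : θ ^ (β + 1) ∣ gb u (b + k) b * ∏ t ∈ range k, brR u ((c : ℤ) - t) := by
      rw [pow_succ']
      have h6 : E + β - E = β := by omega
      rw [h6] at h1
      exact mul_dvd_mul h4 h1
    exact (pow_dvd_pow θ (by omega)).trans h5

end Pool.Agent.Q84.KX
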