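import Pool.Agent.Q79.KX.Stm
import Pool.Agent.Erdos456.Mertens

set_option autoImplicit false

/-!
Project KX (helper79): the counting theorem (job NTJ).
-/

namespace Pool.Agent.Q84.KX

open Finset Pool.Agent.Q79.KX

noncomputable section

open scoped Classical in
theorem card_sub (x : ℕ) (P : ℕ → Prop) : Nat.card {N : ℕ // 1 ≤ N ∧ N ≤ x ∧ P N} =
    ((Icc 1 x).filter P).card := by
  refine Nat.subtype_card _ fun N => ?_
  rw [mem_filter, mem_Icc]
  tauto

/-! ### class 2 -/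

open scoped Classical in
theorem class2 (x : ℕ) (y : ℝ) (hy : 1 ≤ y) :
    (((Icc 1 x).filter fun N => ∃ p : ℕ, p.Prime ∧ y < p ∧ p ^ 2 ∣ N).card : ℝ) ≤ x * (2 / y) := by
  obtain ⟨k, hk⟩ : ∃ k : ℕ, k = ⌊y⌋₊ := ⟨_, rfl⟩
  have hk1 : 1 ≤ k := by rw [hk]; exact Nat.le_floor (by exact_mod_cast hy)
  have hk2 : y < k + 1 := by rw [hk]; exact Nat.lt_floor_add_one y
  have hk3 : (k : ℝ) ≤ y := by rw [hk]; exact Nat.floor_le (by linarith)
  have h1 : ((Icc 1 x).filter fun N => ∃ p : ℕ, p.Prime ∧ y < p ∧ p ^ 2 ∣ N) ⊆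
      (Ioc k (max k x)).biUnion fun p => (Ioc 0 x).filter fun N => p ^ 2 ∣ N := by
    intro N hN
    rw [mem_filter, mem_Icc] at hN
    obtain ⟨⟨h2, h3⟩, p, hp, hyp, hpN⟩ := hN
    rw [mem_biUnion]
    have h4 : p ^ 2 ≤ N := Nat.le_of_dvd (by omega) hpN
    have h5 : p ≤ p ^ 2 := Nat.le_self_pow (by norm_num) p
    have h6 : k < p := by exact_mod_cast hk3.trans_lt hyp
    refine ⟨p, ?_, ?_⟩
    · rw [mem_Ioc]
      exact ⟨h6, le_max_of_le_right (by omega)⟩
    · rw [mem_filter, mem_Ioc]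
      exact ⟨⟨by omega, h3⟩, hpN⟩
  have h2 : (((Icc 1 x).filter fun N => ∃ p : ℕ, p.Prime ∧ y < p ∧ p ^ 2 ∣ N).card : ℝ) ≤
      ∑ p ∈ Ioc k (max k x), (x : ℝ) * ((p : ℝ) ^ 2)⁻¹ := by
    refine le_trans (Nat.cast_le.2 ((card_le_card h1).trans card_biUnion_le)) ?_
    push_cast
    refine sum_le_sum fun p hp => ?_
    rw [Nat.Ioc_filter_dvd_card_eq_div]
    refine Nat.cast_div_le.trans ?_
    push_cast
    rw [div_eq_mul_inv]
  refine h2.trans ?_
  rw [← mul_sum]
  have h3 := sum_Ioc_inv_sq_le_sub (α := ℝ) (k := k) (n := max k x) (by omega) (le_max_left _ _)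
  have h4 : (0 : ℝ) ≤ ((max k x : ℕ) : ℝ)⁻¹ := by positivity
  have h5 : ((k : ℝ))⁻¹ ≤ 2 / y := by
    have hk0 : (0 : ℝ) < k := by exact_mod_cast hk1
    rw [inv_eq_one_div, div_le_div_iff₀ hk0 (by linarith)]
    have : (1 : ℝ) ≤ k := by exact_mod_cast hk1
    linarith
  exact mul_le_mul_of_nonneg_left (by linarith) (Nat.cast_nonneg x)

/-! ### class 3 -/

open scoped Classical in
theorem class3 {C : ℝ} {I : ℕ → ℕ} {Z : ℕ → ℝ} {Bad : ℕ → Prop} (hH : Hyp C I Z Bad)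
    (x W : ℕ) (y B : ℝ) (hy : 1 ≤ y) (hB : 0 ≤ B)
    (hZ : ∀ m : ℕ, 1 ≤ m → m ≤ x → m.primeFactors.card ≤ W → Z m ≤ B) :
    (((Icc 1 x).filter fun N => N.primeFactors.card ≤ W ∧ Bad N ∧
      ∃ p : ℕ, p.Prime ∧ y < p ∧ p ∣ N ∧ ¬ p ^ 2 ∣ N).card : ℝ) ≤ x * (2 * B / y) := by
  obtain ⟨M, hM⟩ : ∃ M : Finset ℕ, M = (Icc 1 ⌊(x : ℝ) / y⌋₊).filter
      fun m => m ≤ x ∧ m.primeFactors.card ≤ W := ⟨_, rfl⟩
  obtain ⟨T, hT⟩ : ∃ T : ℕ → Finset ℕ, T = fun m => (Icc 1 x).filter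
      fun p => p.Prime ∧ ¬ p ∣ m ∧ Bad (m * p) := ⟨_, rfl⟩
  have h1 : ((Icc 1 x).filter fun N => N.primeFactors.card ≤ W ∧ Bad N ∧
      ∃ p : ℕ, p.Prime ∧ y < p ∧ p ∣ N ∧ ¬ p ^ 2 ∣ N) ⊆
      M.biUnion fun m => (T m).image fun p => m * p := by
    intro N hN
    rw [mem_filter, mem_Icc] at hN
    obtain ⟨⟨h2, h3⟩, hW, hbad, p, hp, hyp, hpN, hp2⟩ := hN
    obtain ⟨m, rfl⟩ := hpN
    have hm0 : m ≠ 0 := by rintro rfl; simp at h2
    have hpm : ¬ p ∣ m := by
      rintro ⟨c, rfl⟩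
      exact hp2 ⟨c, by ring⟩
    have hmN : m ≤ p * m := Nat.le_mul_of_pos_left m hp.pos
    rw [mem_biUnion]
    refine ⟨m, ?_, ?_⟩
    · rw [hM, mem_filter, mem_Icc]
      refine ⟨⟨by omega, Nat.le_floor ?_⟩, by omega, ?_⟩
      · rw [le_div_iff₀ (by linarith)]
        have h4 : ((p * m : ℕ) : ℝ) ≤ x := by exact_mod_cast h3
        push_cast at h4
        have h5 : (0 : ℝ) ≤ m := Nat.cast_nonneg m
        nlinarith
      · refine (card_le_card ?_).trans hW
        exact Nat.primeFactors_mono ⟨p, by ring⟩ (by omega)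
    · rw [mem_image]
      refine ⟨p, ?_, by ring⟩
      rw [hT, mem_filter, mem_Icc]
      refine ⟨⟨hp.pos, ?_⟩, hp, hpm, by rwa [mul_comm]⟩
      exact (Nat.le_mul_of_pos_right p (by omega)).trans h3
  have h2 : ∀ m ∈ M, (((T m).image fun p => m * p).card : ℝ) ≤ 2 * B := by
    intro m hm
    rw [hM, mem_filter, mem_Icc] at hm
    have h3 : (((T m).image fun p => m * p).card : ℝ) ≤ (T m).card := by
      exact_mod_cast card_image_le
    have h4 := hH.2.1 m hm.1.1 (T m) (by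
      intro p hp
      rw [hT, mem_filter] at hp
      exact hp.2)
    have h5 : ((T m).card : ℝ) * Real.log 2 ≤ ∑ p ∈ T m, Real.log p := by
      rw [← nsmul_eq_mul, ← sum_const]
      refine sum_le_sum fun p hp => ?_
      rw [hT, mem_filter] at hp
      exact Real.log_le_log (by norm_num) (by exact_mod_cast hp.2.1.two_le)
    have h6 := hZ m hm.1.1 hm.2.1 hm.2.2
    have h7 : (0.5 : ℝ) ≤ Real.log 2 := by linarith [Real.log_two_gt_d9]
    have h8 : (0 : ℝ) ≤ (T m).card := Nat.cast_nonneg _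
    nlinarith
  have h3 : (((Icc 1 x).filter fun N => N.primeFactors.card ≤ W ∧ Bad N ∧
      ∃ p : ℕ, p.Prime ∧ y < p ∧ p ∣ N ∧ ¬ p ^ 2 ∣ N).card : ℝ) ≤ ∑ m ∈ M, 2 * B := by
    refine le_trans (Nat.cast_le.2 ((card_le_card h1).trans card_biUnion_le)) ?_
    push_cast
    exact sum_le_sum h2
  refine h3.trans ?_
  rw [sum_const, nsmul_eq_mul]
  have h4 : (M.card : ℝ) ≤ x / y := by
    have h5 : M.card ≤ ⌊(x : ℝ) / y⌋₊ := by
      rw [hM]
      refine (card_filter_le _ _).trans ?_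
      rw [Nat.card_Icc, Nat.add_sub_cancel]
    exact (Nat.cast_le.2 h5).trans (Nat.floor_le (by positivity))
  calc (M.card : ℝ) * (2 * B) ≤ x / y * (2 * B) := mul_le_mul_of_nonneg_right h4 (by linarith)
    _ = x * (2 * B / y) := by ring

/-! ### class 4 -/

open scoped Classical in
/-- numbers with at most `W` prime factors, all at most `Y` -/
def A4 (x Y W : ℕ) : Finset ℕ :=
  (Icc 1 x).filter fun N => N.primeFactors.card ≤ W ∧ ∀ p ∈ N.primeFactors, p ≤ Y

theorem A4_zero (x Y : ℕ) : (A4 x Y 0).card ≤ 1 := by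
  classical
  refine card_le_one.2 fun a ha b hb => ?_
  have h : ∀ n ∈ A4 x Y 0, n = 1 := by
    intro n hn
    unfold A4 at hn
    rw [mem_filter, mem_Icc, Nat.le_zero, card_eq_zero, Nat.primeFactors_eq_empty] at hn
    omega
  rw [h a ha, h b hb]

theorem A4_succ (x Y W : ℕ) : (A4 x Y (W + 1)).card ≤ (A4 x Y W).card * (1 + Y * Nat.log 2 x) := by
  classical
  obtain ⟨P, hP⟩ : ∃ P : Finset ℕ, P = ((Icc 1 Y) ×ˢ (Icc 1 (Nat.log 2 x))).image
      fun q => q.1 ^ q.2 := ⟨_, rfl⟩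
  have hPc : P.card ≤ Y * Nat.log 2 x := by
    rw [hP]
    refine card_image_le.trans ?_
    rw [card_product, Nat.card_Icc, Nat.card_Icc, Nat.add_sub_cancel, Nat.add_sub_cancel]
  have h1 : A4 x Y (W + 1) ⊆ A4 x Y W ∪ ((A4 x Y W) ×ˢ P).image fun q => q.1 * q.2 := by
    intro N hN
    by_cases hNW : N ∈ A4 x Y W
    · exact mem_union_left _ hNW
    · refine mem_union_right _ ?_
      unfold A4 at hN hNW
      rw [mem_filter, mem_Icc] at hN hNW
      obtain ⟨⟨h2, h3⟩, h4, h5⟩ := hN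
      have h6 : N.primeFactors.card = W + 1 := by
        by_contra h7
        exact hNW ⟨⟨h2, h3⟩, by omega, h5⟩
      obtain ⟨p, hp⟩ : N.primeFactors.Nonempty := card_pos.1 (by omega)
      have hpp := Nat.prime_of_mem_primeFactors hp
      have hpN := Nat.dvd_of_mem_primeFactors hp
      have hN0 : N ≠ 0 := by omega
      obtain ⟨a, ha⟩ : ∃ a : ℕ, a = N.factorization p := ⟨_, rfl⟩
      obtain ⟨m, hm⟩ : ∃ m : ℕ, m = ordCompl[p] N := ⟨_, rfl⟩
      have hNm : N = m * p ^ a := by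
        rw [hm, ha, mul_comm]
        exact (Nat.ordProj_mul_ordCompl_eq_self N p).symm
      have ha1 : 1 ≤ a := by
        rw [ha]
        exact hpp.factorization_pos_of_dvd hN0 hpN
      have hm0 : m ≠ 0 := by
        rintro h
        rw [h, zero_mul] at hNm
        exact hN0 hNm
      have hpm : ¬ p ∣ m := by
        rw [hm]
        exact Nat.not_dvd_ordCompl hpp hN0
      have hcop : Nat.Coprime m (p ^ a) := by
        apply Nat.Coprime.pow_right
        exact ((Nat.Prime.coprime_iff_not_dvd hpp).2 hpm).symm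
      have hpf : N.primeFactors = m.primeFactors ∪ {p} := by
        rw [hNm, Nat.Coprime.primeFactors_mul hcop, Nat.primeFactors_prime_pow (by omega) hpp]
      have hdis : p ∉ m.primeFactors := fun h => hpm (Nat.dvd_of_mem_primeFactors h)
      have hcard : m.primeFactors.card = W := by
        have : (m.primeFactors ∪ {p}).card = m.primeFactors.card + 1 := by
          rw [card_union_of_disjoint (disjoint_singleton_right.2 hdis), card_singleton]
        rw [← hpf, h6] at this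
        omega
      have hpa0 : 0 < p ^ a := Nat.pow_pos hpp.pos
      rw [mem_image]
      refine ⟨(m, p ^ a), ?_, hNm.symm⟩
      rw [mem_product]
      constructor
      · unfold A4
        rw [mem_filter, mem_Icc]
        refine ⟨⟨Nat.one_le_iff_ne_zero.2 hm0, ?_⟩, hcard.le, fun q hq => h5 q ?_⟩
        · show m ≤ x
          have : m ≤ m * p ^ a := Nat.le_mul_of_pos_right m hpa0
          omega
        · rw [hpf]
          exact mem_union_left _ hq
      · rw [hP, mem_image]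
        refine ⟨(p, a), ?_, rfl⟩
        rw [mem_product, mem_Icc, mem_Icc]
        refine ⟨⟨hpp.pos, h5 p hp⟩, ha1, ?_⟩
        show a ≤ Nat.log 2 x
        apply Nat.le_log_of_pow_le (by norm_num)
        calc 2 ^ a ≤ p ^ a := Nat.pow_le_pow_left hpp.two_le a
          _ ≤ m * p ^ a := Nat.le_mul_of_pos_left _ (by omega)
          _ = N := hNm.symm
          _ ≤ x := h3
  calc (A4 x Y (W + 1)).card ≤ (A4 x Y W ∪ ((A4 x Y W) ×ˢ P).image fun q => q.1 * q.2).card :=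
        card_le_card h1
    _ ≤ (A4 x Y W).card + (((A4 x Y W) ×ˢ P).image fun q => q.1 * q.2).card := card_union_le _ _
    _ ≤ (A4 x Y W).card + (A4 x Y W).card * P.card := by
        have := card_image_le (s := (A4 x Y W) ×ˢ P) (f := fun q => q.1 * q.2)
        rw [card_product] at this
        omega
    _ ≤ (A4 x Y W).card + (A4 x Y W).card * (Y * Nat.log 2 x) := by
        have := Nat.mul_le_mul_left (A4 x Y W).card hPc
        omega
    _ = _ := by ring

theorem A4_card (x Y W : ℕ) : (A4 x Y W).card ≤ (1 + Y * Nat.log 2 x) ^ W := by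
  induction W with
  | zero => simpa using A4_zero x Y
  | succ W ih =>
    calc (A4 x Y (W + 1)).card ≤ (A4 x Y W).card * (1 + Y * Nat.log 2 x) := A4_succ x Y W
      _ ≤ (1 + Y * Nat.log 2 x) ^ W * (1 + Y * Nat.log 2 x) := Nat.mul_le_mul_right _ ih
      _ = _ := by ring

/-! ### the asymptotic inequalities -/

theorem asym (C₀ : ℝ) : ∀ᶠ l : ℝ in Filter.atTop, 1 ≤ Real.log l ∧ C₀ ≤ Real.log l ∧
    Real.log (Real.log l) ≤ Real.log l / 5 ∧ 160000 ≤ Real.sqrt (l / Real.log l) ∧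
    100 * Real.log l ≤ l := by
  have h1 : Filter.Tendsto Real.log Filter.atTop Filter.atTop := Real.tendsto_log_atTop
  have h2 : ∀ᶠ l : ℝ in Filter.atTop, Real.log l / l ≤ 1 / 160000 ^ 2 := by
    have h3 := (Real.isLittleO_log_id_atTop).bound (c := 1 / 160000 ^ 2) (by norm_num)
    filter_upwards [h3, Filter.eventually_ge_atTop 1] with l h4 h5
    rw [div_le_iff₀ (by linarith)]
    simp only [id] at h4
    rw [Real.norm_of_nonneg (Real.log_nonneg h5), Real.norm_of_nonneg (by linarith)] at h4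
    exact h4
  have h3 : ∀ᶠ l : ℝ in Filter.atTop, Real.log l ≤ l / 5 := by
    filter_upwards [h2, Filter.eventually_gt_atTop 0] with l h4 h5
    rw [div_le_iff₀ h5] at h4
    have : 1 / 160000 ^ 2 * l ≤ l / 5 := by
      have : (1 : ℝ) / 160000 ^ 2 ≤ 1 / 5 := by norm_num
      nlinarith
    linarith
  filter_upwards [h1.eventually_ge_atTop 1, h1.eventually_ge_atTop C₀, h1.eventually h3, h2,
    Filter.eventually_gt_atTop 0] with l a1 a2 a3 a4 a5
  have hll : 0 < Real.log l := by linarith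
  have h4 : (160000 : ℝ) ^ 2 ≤ l / Real.log l := by
    rw [le_div_iff₀ hll]
    rw [div_le_iff₀ a5] at a4
    have : (160000 : ℝ) ^ 2 * Real.log l ≤ 160000 ^ 2 * (1 / 160000 ^ 2 * l) :=
      mul_le_mul_of_nonneg_left a4 (by norm_num)
    calc (160000 : ℝ) ^ 2 * Real.log l ≤ 160000 ^ 2 * (1 / 160000 ^ 2 * l) := this
      _ = l := by ring
  refine ⟨a1, a2, a3, Real.le_sqrt_of_sq_le h4, ?_⟩
  rw [le_div_iff₀ hll] at h4
  nlinarith

theorem ntj : S_NTJ := by
  classical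
  intro hNTa hNTb C hC
  obtain ⟨x₁, hx₁⟩ := hNTb C hC
  obtain ⟨C₀, hC₀⟩ := Pool.Agent.Erdos456.Mert.mertens_inv
  have hev : ∀ᶠ x : ℕ in Filter.atTop, 1 ≤ Real.log (Real.log x) ∧ C₀ ≤ Real.log (Real.log x) ∧
      Real.log (Real.log (Real.log x)) ≤ Real.log (Real.log x) / 5 ∧
      160000 ≤ Real.sqrt (Real.log x / Real.log (Real.log x)) ∧
      100 * Real.log (Real.log x) ≤ Real.log x := by
    have h1 : Filter.Tendsto (fun x : ℕ => Real.log (x : ℝ)) Filter.atTop Filter.atTop :=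
      Real.tendsto_log_atTop.comp tendsto_natCast_atTop_atTop
    exact h1.eventually (asym C₀)
  obtain ⟨x₂, hx₂⟩ := Filter.eventually_atTop.1 hev
  refine ⟨max 3 (max x₁ x₂), fun I Z Bad hH x hx => ?_⟩
  have hx3 : 3 ≤ x := (le_max_left _ _).trans hx
  have hxa : x₁ ≤ x := ((le_max_left _ _).trans (le_max_right _ _)).trans hx
  have hxb : x₂ ≤ x := ((le_max_right _ _).trans (le_max_right _ _)).trans hx
  obtain ⟨a1, a2, a3, a4, a5⟩ := hx₂ x hxb
  have hZ0 := hx₁ I Z Bad hH x hxa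
  have hmer := hC₀ x hx3
  have hx0 : (0 : ℝ) < x := by exact_mod_cast (by omega : 0 < x)
  rw [card_sub]
  obtain ⟨l, hl⟩ : ∃ l : ℝ, l = Real.log x := ⟨_, rfl⟩
  obtain ⟨ll, hll⟩ : ∃ ll : ℝ, ll = Real.log l := ⟨_, rfl⟩
  obtain ⟨s, hs⟩ : ∃ s : ℝ, s = Real.sqrt (l / ll) := ⟨_, rfl⟩
  rw [← hl] at a1 a2 a3 a4 a5 hZ0 hmer ⊢
  rw [← hll] at a1 a2 a3 a4 a5 hZ0 hmer ⊢
  rw [← hs] at a4 hZ0
  have hxl : (x : ℝ) = Real.exp l := by rw [hl, Real.exp_log hx0]
  have hl100 : 100 ≤ l := by linarith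
  have hl0 : 0 < l := by linarith
  have hll0 : 0 < ll := by linarith
  have hlexp : l = Real.exp ll := by rw [hll, Real.exp_log hl0]
  have hs0 : 0 < s := by linarith
  have hs2 : s ^ 2 * ll = l := by
    rw [hs, Real.sq_sqrt (by positivity)]
    field_simp
  have hS : Real.sqrt (l * ll) = s * ll := by
    rw [← hs2, show s ^ 2 * ll * ll = (s * ll) ^ 2 by ring]
    exact Real.sqrt_sq (by positivity)
  rw [hS]
  obtain ⟨W, hW⟩ : ∃ W : ℕ, W = ⌊s / 8⌋₊ := ⟨_, rfl⟩
  have hW1 : (W : ℝ) ≤ s / 8 := by rw [hW]; exact Nat.floor_le (by positivity)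
  have hW2 : s / 8 < W + 1 := by rw [hW]; exact Nat.lt_floor_add_one _
  obtain ⟨y, hy⟩ : ∃ y : ℝ, y = l ^ (8 * W + 8) := ⟨_, rfl⟩
  have hpow : ∀ k : ℕ, l ^ k = Real.exp (k * ll) := by
    intro k
    rw [Real.exp_nat_mul, ← hlexp]
  have hS0 : 0 ≤ s * ll := by positivity
  have hyS : Real.exp (s * ll) ≤ y := by
    rw [hy, hpow]
    apply Real.exp_le_exp.2
    push_cast
    nlinarith
  have hy1 : 1 ≤ y := (Real.one_le_exp hS0).trans hyS
  have hy0 : 0 < y := by linarith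
  -- the four classes
  obtain ⟨B1, hB1⟩ : ∃ B : Finset ℕ, B = (Icc 1 x).filter fun N => W + 1 ≤ N.primeFactors.card := ⟨_, rfl⟩
  obtain ⟨B2, hB2⟩ : ∃ B : Finset ℕ, B = (Icc 1 x).filter fun N =>
    ∃ p : ℕ, p.Prime ∧ y < p ∧ p ^ 2 ∣ N := ⟨_, rfl⟩
  obtain ⟨B3, hB3⟩ : ∃ B : Finset ℕ, B = (Icc 1 x).filter fun N => N.primeFactors.card ≤ W ∧ Bad N ∧
      ∃ p : ℕ, p.Prime ∧ y < p ∧ p ∣ N ∧ ¬ p ^ 2 ∣ N := ⟨_, rfl⟩
  have hcover : (Icc 1 x).filter Bad ⊆ B1 ∪ (B2 ∪ (B3 ∪ A4 x ⌊y⌋₊ W)) := by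
    intro N hN
    rw [mem_filter] at hN
    by_cases c1 : W + 1 ≤ N.primeFactors.card
    · exact mem_union_left _ (by rw [hB1, mem_filter]; exact ⟨hN.1, c1⟩)
    refine mem_union_right _ ?_
    by_cases c2 : ∃ p : ℕ, p.Prime ∧ y < p ∧ p ^ 2 ∣ N
    · exact mem_union_left _ (by rw [hB2, mem_filter]; exact ⟨hN.1, c2⟩)
    refine mem_union_right _ ?_
    by_cases c3 : ∃ p : ℕ, p.Prime ∧ y < p ∧ p ∣ N ∧ ¬ p ^ 2 ∣ N
    · exact mem_union_left _ (by rw [hB3, mem_filter]; exact ⟨hN.1, by omega, hN.2, c3⟩)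
    refine mem_union_right _ ?_
    unfold A4
    rw [mem_filter]
    refine ⟨hN.1, by omega, fun p hp => ?_⟩
    have hpp := Nat.prime_of_mem_primeFactors hp
    have hpN := Nat.dvd_of_mem_primeFactors hp
    by_contra h
    have h1 : y < p := by
      by_contra h2
      exact h (Nat.le_floor (not_lt.1 h2))
    by_cases h2 : p ^ 2 ∣ N
    · exact c2 ⟨p, hpp, h1, h2⟩
    · exact c3 ⟨p, hpp, h1, hpN, h2⟩
  have hsum : (((Icc 1 x).filter Bad).card : ℝ) ≤
      B1.card + (B2.card + (B3.card + (A4 x ⌊y⌋₊ W).card)) := by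
    have h1 := card_le_card hcover
    have h2 := card_union_le B1 (B2 ∪ (B3 ∪ A4 x ⌊y⌋₊ W))
    have h3 := card_union_le B2 (B3 ∪ A4 x ⌊y⌋₊ W)
    have h4 := card_union_le B3 (A4 x ⌊y⌋₊ W)
    have h5 : ((Icc 1 x).filter Bad).card ≤
      B1.card + (B2.card + (B3.card + (A4 x ⌊y⌋₊ W).card)) := by omega
    exact_mod_cast h5
  refine hsum.trans ?_
  -- class 1
  have e1 : (B1.card : ℝ) ≤ x * Real.exp (-(s * ll / 50)) := by
    obtain ⟨z, hz⟩ : ∃ z : ℝ, z = Real.sqrt s := ⟨_, rfl⟩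
    have hz1 : 400 ≤ z := by
      rw [hz]
      apply Real.le_sqrt_of_sq_le
      linarith
    have hzs : z ^ 2 = s := by rw [hz]; exact Real.sq_sqrt hs0.le
    have h1 := hNTa x (W + 1) z (by linarith)
    rw [card_sub] at h1
    have h2 : z * ∑ p ∈ (Finset.Icc 1 x).filter Nat.Prime, 1 / (p : ℝ) ≤ z * (ll + C₀) := by
      apply mul_le_mul_of_nonneg_left _ (by linarith)
      have := (abs_le.1 hmer).2
      linarith
    have hlogs : 2 / 5 * ll ≤ Real.log s := by
      have : Real.log s = (ll - Real.log ll) / 2 := by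
        rw [hs, Real.log_sqrt (by positivity), Real.log_div hl0.ne' hll0.ne', ← hll]
      rw [this]
      linarith
    have hlogz : 1 / 5 * ll ≤ Real.log z := by
      rw [hz, Real.log_sqrt hs0.le]
      linarith
    have h3 : Real.exp (s * ll / 40) ≤ z ^ (W + 1) := by
      have hz0 : 0 < z := by linarith
      rw [← Real.exp_log (pow_pos hz0 (W + 1)), Real.log_pow]
      apply Real.exp_le_exp.2
      push_cast
      have h4 : s / 8 * (1 / 5 * ll) ≤ (W + 1) * Real.log z :=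
        mul_le_mul hW2.le hlogz (by positivity) (by positivity)
      linarith
    have h4 : (B1.card : ℝ) * Real.exp (s * ll / 40) ≤ x * Real.exp (z * (ll + C₀)) := by
      have h5 : (B1.card : ℝ) * z ^ (W + 1) ≤ x * Real.exp (z * (ll + C₀)) := by
        rw [hB1]
        refine le_trans (le_of_eq ?_) (h1.trans (mul_le_mul_of_nonneg_left
          (Real.exp_le_exp.2 h2) hx0.le))
        congr!
      exact (mul_le_mul_of_nonneg_left h3 (Nat.cast_nonneg _)).trans h5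
    have h5 : z * (ll + C₀) ≤ s * ll / 200 := by
      have h6 : z * (ll + C₀) ≤ z * (2 * ll) := mul_le_mul_of_nonneg_left (by linarith) (by linarith)
      have h7 : 400 * (z * ll) ≤ z * (z * ll) :=
        mul_le_mul_of_nonneg_right hz1 (mul_nonneg (by linarith) hll0.le)
      have h8 : s * ll = z * (z * ll) := by rw [← hzs]; ring
      linarith
    have h6 : x * Real.exp (z * (ll + C₀)) ≤ (x * Real.exp (-(s * ll / 50))) * Real.exp (s * ll / 40) := by
      rw [mul_assoc, ← Real.exp_add]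
      apply mul_le_mul_of_nonneg_left _ hx0.le
      apply Real.exp_le_exp.2
      linarith
    exact le_of_mul_le_mul_right (h4.trans h6) (Real.exp_pos _)
  -- class 2
  have e2 : (B2.card : ℝ) ≤ 2 * (x * Real.exp (-(s * ll / 50))) := by
    have h1 := class2 x y hy1
    have h2 : (B2.card : ℝ) ≤ x * (2 / y) := by rw [hB2]; convert h1
    refine h2.trans ?_
    have h3 : 2 / y ≤ 2 * Real.exp (-(s * ll / 50)) := by
      rw [div_eq_mul_inv]
      apply mul_le_mul_of_nonneg_left _ (by norm_num)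
      rw [Real.exp_neg]
      apply inv_anti₀ (Real.exp_pos _)
      refine (Real.exp_le_exp.2 ?_).trans hyS
      linarith
    nlinarith
  -- class 3
  have e3 : (B3.card : ℝ) ≤ 2 * (x * Real.exp (-(s * ll / 50))) := by
    have h1 := class3 hH x W y (l ^ (6 * W + 4)) hy1 (by positivity) (fun m h1 h2 h3 =>
      hZ0 W hW1 m h1 h2 h3)
    have h2 : (B3.card : ℝ) ≤ x * (2 * l ^ (6 * W + 4) / y) := by rw [hB3]; convert h1
    refine h2.trans ?_
    have h3 : 2 * l ^ (6 * W + 4) / y ≤ 2 * Real.exp (-(s * ll / 50)) := by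
      rw [mul_div_assoc]
      apply mul_le_mul_of_nonneg_left _ (by norm_num)
      rw [hy, div_le_iff₀ (by positivity), hpow, hpow, ← Real.exp_add]
      apply Real.exp_le_exp.2
      push_cast
      nlinarith
    nlinarith
  -- class 4
  have e4 : ((A4 x ⌊y⌋₊ W).card : ℝ) ≤ x * Real.exp (-(s * ll / 50)) := by
    have h1 : ((A4 x ⌊y⌋₊ W).card : ℝ) ≤ (1 + ⌊y⌋₊ * Nat.log 2 x) ^ W := by
      exact_mod_cast A4_card x ⌊y⌋₊ W
    have h2 : (Nat.log 2 x : ℝ) ≤ 2 * l := by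
      have h3 : (2 : ℝ) ^ (Nat.log 2 x) ≤ x := by
        exact_mod_cast Nat.pow_log_le_self 2 (by omega)
      have h4 := Real.log_le_log (by positivity) h3
      rw [Real.log_pow, ← hl] at h4
      have h5 : (0.5 : ℝ) ≤ Real.log 2 := by linarith [Real.log_two_gt_d9]
      have h6 : (0 : ℝ) ≤ Nat.log 2 x := Nat.cast_nonneg _
      nlinarith
    have h3 : ((⌊y⌋₊ : ℕ) : ℝ) ≤ y := Nat.floor_le hy0.le
    have h4 : 1 + ((⌊y⌋₊ : ℕ) : ℝ) * Nat.log 2 x ≤ l ^ (8 * W + 10) := by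
      have h5 : ((⌊y⌋₊ : ℕ) : ℝ) * Nat.log 2 x ≤ y * (2 * l) :=
        mul_le_mul h3 h2 (Nat.cast_nonneg _) hy0.le
      have h6 : l ^ (8 * W + 10) = y * l ^ 2 := by rw [hy, ← pow_add]
      rw [h6]
      have h7 : 1 + 2 * l ≤ l ^ 2 := by nlinarith
      nlinarith
    have h5 : ((A4 x ⌊y⌋₊ W).card : ℝ) ≤ Real.exp (l / 4) := by
      refine h1.trans ((pow_le_pow_left₀ (by positivity) h4 W).trans ?_)
      rw [hpow, ← Real.exp_nat_mul]
      apply Real.exp_le_exp.2
      push_cast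
      have h6 : (W : ℝ) * ((8 * W + 10) * ll) = (8 * (W : ℝ) ^ 2 + 10 * W) * ll := by ring
      rw [h6]
      have h7 : (8 * (W : ℝ) ^ 2 + 10 * W) * ll ≤ (8 * (s / 8) ^ 2 + 10 * (s / 8)) * ll := by
        apply mul_le_mul_of_nonneg_right _ hll0.le
        have : (W : ℝ) ^ 2 ≤ (s / 8) ^ 2 := pow_le_pow_left₀ (Nat.cast_nonneg W) hW1 2
        linarith
      refine h7.trans ?_
      have h8 : s * ll ≤ l / 160000 := by
        rw [← hs2]
        have : 160000 * (s * ll) ≤ s * (s * ll) := mul_le_mul_of_nonneg_right a4 hS0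
        nlinarith
      have h9 : (8 * (s / 8) ^ 2 + 10 * (s / 8)) * ll = s ^ 2 * ll / 8 + 10 / 8 * (s * ll) := by ring
      rw [h9, hs2]
      linarith
    refine h5.trans ?_
    rw [hxl, ← Real.exp_add]
    apply Real.exp_le_exp.2
    have h8 : s * ll ≤ l / 160000 := by
      rw [← hs2]
      have : 160000 * (s * ll) ≤ s * (s * ll) := mul_le_mul_of_nonneg_right a4 hS0
      nlinarith
    linarith
  have e5 : Real.exp (-(s * ll / 50)) * 6 ≤ Real.exp (-(1 / 100) * (s * ll)) := by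
    have h1 : Real.exp (-(s * ll / 50)) = Real.exp (-(1 / 100) * (s * ll)) *
        Real.exp (-(s * ll / 100)) := by
      rw [← Real.exp_add]
      congr 1
      ring
    have h2 : Real.exp (-(s * ll / 100)) * 6 ≤ 1 := by
      have h3 : 6 ≤ Real.exp (s * ll / 100) := by
        have h4 := Real.add_one_le_exp (s * ll / 100)
        have h5 : 160000 * 1 ≤ s * ll := mul_le_mul a4 a1 (by norm_num) hs0.le
        linarith
      rw [Real.exp_neg, inv_mul_le_iff₀ (Real.exp_pos _)]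
      linarith
    rw [h1, mul_assoc]
    have := Real.exp_pos (-(1 / 100) * (s * ll))
    nlinarith
  have e6 : x * (Real.exp (-(s * ll / 50)) * 6) ≤ x * Real.exp (-(1 / 100) * (s * ll)) :=
    mul_le_mul_of_nonneg_left e5 hx0.le
  linarith

end

end Pool.Agent.Q84.KX
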