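import Pool.Agent.Q84.KX.NTJ

set_option autoImplicit false

/-!
Project KX (helper79): the orders grow slowly for numbers with few prime factors (job NTb).
-/

namespace Pool.Agent.Q84.KX

open Finset Pool.Agent.Q79.KX

noncomputable section

/-- splitting off a prime power -/
theorem split_prime {m k : ℕ} (hm : 1 ≤ m) (h : m.primeFactors.card = k + 1) :
    ∃ m' p a : ℕ, p.Prime ∧ ¬ p ∣ m' ∧ 1 ≤ a ∧ 1 ≤ m' ∧ m' ≤ m ∧ m = m' * p ^ a ∧
      m'.primeFactors.card = k := by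
  obtain ⟨p, hp⟩ : m.primeFactors.Nonempty := card_pos.1 (by omega)
  have hpp := Nat.prime_of_mem_primeFactors hp
  have hpN := Nat.dvd_of_mem_primeFactors hp
  have hN0 : m ≠ 0 := by omega
  obtain ⟨a, ha⟩ : ∃ a : ℕ, a = m.factorization p := ⟨_, rfl⟩
  obtain ⟨m', hm'⟩ : ∃ m' : ℕ, m' = ordCompl[p] m := ⟨_, rfl⟩
  have hNm : m = m' * p ^ a := by
    rw [hm', ha, mul_comm]
    exact (Nat.ordProj_mul_ordCompl_eq_self m p).symm
  have ha1 : 1 ≤ a := by
    rw [ha]
    exact hpp.factorization_pos_of_dvd hN0 hpN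
  have hm0 : m' ≠ 0 := by
    rintro h
    rw [h, zero_mul] at hNm
    exact hN0 hNm
  have hpm : ¬ p ∣ m' := by
    rw [hm']
    exact Nat.not_dvd_ordCompl hpp hN0
  have hcop : Nat.Coprime m' (p ^ a) := by
    apply Nat.Coprime.pow_right
    exact ((Nat.Prime.coprime_iff_not_dvd hpp).2 hpm).symm
  have hpf : m.primeFactors = m'.primeFactors ∪ {p} := by
    rw [hNm, Nat.Coprime.primeFactors_mul hcop, Nat.primeFactors_prime_pow (by omega) hpp]
  have hdis : p ∉ m'.primeFactors := fun h => hpm (Nat.dvd_of_mem_primeFactors h)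
  have hcard : m'.primeFactors.card = k := by
    have : (m'.primeFactors ∪ {p}).card = m'.primeFactors.card + 1 := by
      rw [card_union_of_disjoint (disjoint_singleton_right.2 hdis), card_singleton]
    rw [← hpf, h] at this
    omega
  refine ⟨m', p, a, hpp, hpm, ha1, Nat.one_le_iff_ne_zero.2 hm0, ?_, hNm, hcard⟩
  calc m' ≤ m' * p ^ a := Nat.le_mul_of_pos_right m' (Nat.pow_pos hpp.pos)
    _ = m := hNm.symm

theorem step {C : ℝ} (hC : 1 ≤ C) {I : ℕ → ℕ} {Z : ℕ → ℝ} {Bad : ℕ → Prop} (hH : Hyp C I Z Bad)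
    {x W : ℕ} {l : ℝ} (hl1 : 2 ≤ l) (hx : ∀ m : ℕ, m ≤ x → Real.log ((m : ℝ) + 2) ≤ 2 * l)
    (hW : 4 * C * ((W : ℝ) + 1) ≤ l) (hW2 : Real.log 2 + 6 * W * Real.log l ≤ l) (k : ℕ) (hk : k ≤ W)
    {m : ℕ} (hm : 1 ≤ m) (hmx : m ≤ x) (hmk : m.primeFactors.card = k)
    (hI : (I m : ℝ) + 1 ≤ l ^ (6 * k)) : Z m ≤ l ^ (6 * k + 4) := by
  have h1 := hH.2.2.2 m hm
  rw [hmk] at h1
  have hI0 : (0 : ℝ) ≤ I m := Nat.cast_nonneg _
  have hl0 : 0 < l := by linarith
  have h2 : Real.log ((I m : ℝ) + 2) ≤ l := by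
    have h3 : (1 : ℝ) ≤ l ^ (6 * k) := one_le_pow₀ (by linarith)
    have h4 : (I m : ℝ) + 2 ≤ 2 * l ^ (6 * k) := by linarith
    refine (Real.log_le_log (by linarith) h4).trans ?_
    rw [Real.log_mul (by norm_num) (by positivity), Real.log_pow]
    have h5 : (k : ℝ) ≤ W := by exact_mod_cast hk
    have h6 : 0 ≤ Real.log l := Real.log_nonneg (by linarith)
    push_cast
    nlinarith
  have h2' : 0 ≤ Real.log ((I m : ℝ) + 2) := Real.log_nonneg (by linarith)
  have h3 : Real.log ((m : ℝ) + 2) ^ 2 ≤ (2 * l) ^ 2 := by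
    have hm0 : (0 : ℝ) ≤ m := Nat.cast_nonneg _
    exact pow_le_pow_left₀ (Real.log_nonneg (by linarith)) (hx m hmx) 2
  have h4 : C * ((k : ℝ) + 1) ≤ l / 4 := by
    have h5 : (k : ℝ) ≤ W := by exact_mod_cast hk
    nlinarith
  refine h1.trans ?_
  calc C * ((k : ℝ) + 1) * ((I m : ℝ) + 1) * Real.log ((m : ℝ) + 2) ^ 2 * Real.log ((I m : ℝ) + 2)
      ≤ l / 4 * l ^ (6 * k) * (2 * l) ^ 2 * l := by gcongr
    _ = l ^ (6 * k + 4) := by ring

theorem ntb : S_NTb := by
  intro C hC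
  have hev : ∀ᶠ x : ℕ in Filter.atTop, 1 ≤ Real.log (Real.log x) ∧
      100 * Real.log (Real.log x) ≤ Real.log x ∧ 64 * C ^ 2 ≤ Real.log x := by
    have h1 : Filter.Tendsto (fun x : ℕ => Real.log (x : ℝ)) Filter.atTop Filter.atTop :=
      Real.tendsto_log_atTop.comp tendsto_natCast_atTop_atTop
    have h2 : ∀ᶠ l : ℝ in Filter.atTop, 1 ≤ Real.log l ∧ 100 * Real.log l ≤ l ∧ 64 * C ^ 2 ≤ l := by
      filter_upwards [asym 0, Filter.eventually_ge_atTop (64 * C ^ 2)] with l h3 h4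
      exact ⟨h3.1, h3.2.2.2.2, h4⟩
    exact h1.eventually h2
  obtain ⟨x₂, hx₂⟩ := Filter.eventually_atTop.1 hev
  refine ⟨max 3 x₂, fun I Z Bad hH x hx W hW m hm hmx hmW => ?_⟩
  have hx3 : 3 ≤ x := (le_max_left _ _).trans hx
  obtain ⟨a1, a2, a3⟩ := hx₂ x ((le_max_right _ _).trans hx)
  have hx0 : (0 : ℝ) < x := by exact_mod_cast (by omega : 0 < x)
  obtain ⟨l, hl⟩ : ∃ l : ℝ, l = Real.log x := ⟨_, rfl⟩
  rw [← hl] at a1 a2 a3 hW ⊢
  have hll0 : 0 < Real.log l := by linarith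
  have hl2 : 64 ≤ l := by nlinarith
  have hl0 : 0 < l := by linarith
  have hlog : ∀ m : ℕ, m ≤ x → Real.log ((m : ℝ) + 2) ≤ 2 * l := by
    intro m hm
    have h1 : (m : ℝ) + 2 ≤ (x : ℝ) ^ 2 := by
      have h2 : (m : ℝ) ≤ x := by exact_mod_cast hm
      have h3 : (3 : ℝ) ≤ x := by exact_mod_cast hx3
      nlinarith
    have h2 := Real.log_le_log (by positivity) h1
    rw [Real.log_pow, ← hl] at h2
    exact_mod_cast h2
  have hWs : (W : ℝ) ≤ Real.sqrt l / 8 := by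
    refine hW.trans (div_le_div_of_nonneg_right (Real.sqrt_le_sqrt ?_) (by norm_num))
    rw [div_le_iff₀ hll0]
    nlinarith
  have hsq : Real.sqrt l ^ 2 = l := Real.sq_sqrt hl0.le
  have hs8 : 8 * C ≤ Real.sqrt l := by
    apply Real.le_sqrt_of_sq_le
    nlinarith
  have hW1 : 4 * C * ((W : ℝ) + 1) ≤ l := by
    have h1 : (W : ℝ) + 1 ≤ 2 * Real.sqrt l := by linarith
    calc 4 * C * ((W : ℝ) + 1) ≤ 4 * C * (2 * Real.sqrt l) :=
          mul_le_mul_of_nonneg_left h1 (by linarith)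
      _ = 8 * C * Real.sqrt l := by ring
      _ ≤ Real.sqrt l * Real.sqrt l := mul_le_mul_of_nonneg_right hs8 (Real.sqrt_nonneg l)
      _ = l := by rw [← sq, hsq]
  have hW2 : Real.log 2 + 6 * W * Real.log l ≤ l := by
    have h1 : (W : ℝ) * Real.log l ≤ Real.sqrt (l * Real.log l) / 8 := by
      have h2 : Real.sqrt (l / Real.log l) * Real.log l = Real.sqrt (l * Real.log l) := by
        have h3 : l * Real.log l = l / Real.log l * Real.log l ^ 2 := by field_simp
        rw [h3, Real.sqrt_mul (by positivity), Real.sqrt_sq hll0.le]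
      rw [← h2]
      have := mul_le_mul_of_nonneg_right hW hll0.le
      linarith
    have h2 : Real.sqrt (l * Real.log l) ≤ l / 10 := by
      rw [Real.sqrt_le_left (by linarith)]
      nlinarith
    have h3 := Real.log_two_lt_d9
    nlinarith
  have key : ∀ k : ℕ, k ≤ W → ∀ m : ℕ, 1 ≤ m → m ≤ x → m.primeFactors.card = k →
      (I m : ℝ) + 1 ≤ l ^ (6 * k) := by
    intro k
    induction k with
    | zero =>
      intro _ m hm _ h
      rw [card_eq_zero, Nat.primeFactors_eq_empty] at h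
      have : m = 1 := by omega
      rw [this, hH.1]
      simp
    | succ k ih =>
      intro hk m hm hmx h
      obtain ⟨m', p, a, hp, hpm, ha, hm1, hmm, e, hc⟩ := split_prime hm h
      have h1 := ih (by omega) m' hm1 (hmm.trans hmx) hc
      have h2 := step hC hH (by linarith) hlog hW1 hW2 k (by omega) hm1 (hmm.trans hmx) hc h1
      have h3 := hH.2.2.1 m' p a hm1 hp hpm ha
      rw [← e] at h3
      have h4 : (0.5 : ℝ) ≤ Real.log p := by
        have h5 : Real.log 2 ≤ Real.log p :=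
          Real.log_le_log (by norm_num) (by exact_mod_cast hp.two_le)
        linarith [Real.log_two_gt_d9]
      have h5 : (0 : ℝ) ≤ I m := Nat.cast_nonneg _
      have h6 : (I m : ℝ) ≤ 2 * l ^ (6 * k + 4) := by nlinarith
      have h7 : (1 : ℝ) ≤ l ^ (6 * k + 4) := one_le_pow₀ (by linarith)
      have h8 : l ^ (6 * (k + 1)) = l ^ 2 * l ^ (6 * k + 4) := by ring
      rw [h8]
      have h9 : 3 * l ^ (6 * k + 4) ≤ l ^ 2 * l ^ (6 * k + 4) :=
        mul_le_mul_of_nonneg_right (by nlinarith) (by linarith)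
      linarith
  obtain ⟨k, hk⟩ : ∃ k : ℕ, k = m.primeFactors.card := ⟨_, rfl⟩
  have h1 := key k (by omega) m hm hmx hk.symm
  have h2 := step hC hH (by linarith) hlog hW1 hW2 k (by omega) hm hmx hk.symm h1
  exact h2.trans (pow_le_pow_right₀ (by linarith) (by omega))

end

end Pool.Agent.Q84.KX
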